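import Pool.Agent.Helper70_BE01.Fun

/-!
# Squad BEC (MP_be01ff_an): classical solutions are strong solutions

A function `u(t, x)` which is `C²` in an open set containing `[0, ∞) × closure Ω`, vanishes on the
boundary and satisfies the damped wave equation pointwise is a strong solution in the sense of
`Pool.Agent.BE01F.Sol`.  It is applied to the shells of `ℝ³` (every `α > 0`).
-/

set_option autoImplicit false

namespace Pool.Agent.BEC

open Set Filter Topology MeasureTheory InnerProductSpace Laplacian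
open scoped InnerProductSpace ENNReal
open Pool.Agent.BE01F

noncomputable section

variable {d : ℕ}

/-- The shell. -/
def Shl (d : ℕ) (r R : ℝ) : Set (E d) := {y | r < ‖y‖ ∧ ‖y‖ < R}

/-- `u` is `C²` in an open set containing `[0, ∞) × closure Ω`. -/
def C2 (Ω : Set (E d)) (u : ℝ → E d → ℝ) : Prop := ∃ U : Set (ℝ × E d), IsOpen U ∧
  {z : ℝ × E d | 0 ≤ z.1 ∧ z.2 ∈ closure Ω} ⊆ U ∧ ContDiffOn ℝ 2 (fun z : ℝ × E d => u z.1 z.2) U

/-- The first derivative in time. -/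
def vt (u : ℝ → E d → ℝ) (t : ℝ) (x : E d) : ℝ := deriv (fun s => u s x) t

/-- The second derivative in time. -/
def wt (u : ℝ → E d → ℝ) (t : ℝ) (x : E d) : ℝ := iteratedDeriv 2 (fun s => u s x) t

/-- MOL (easy-medium; no hypotheses): approximation in `C^1`.  Convolution with
`(φ : ContDiffBump (0 : E d)).normed volume` of small radius: `ContDiffBump.dist_normed_convolution_le`
(uniform continuity of `F` and of `fderiv ℝ F`, both have compact support: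
`Continuous.uniformContinuous_of_hasCompactSupport` or `HasCompactSupport.uniformContinuous_of_continuous`),
`HasCompactSupport.contDiff_convolution_left`, `HasCompactSupport.hasFDerivAt_convolution_right`
(the derivative of the convolution is the convolution with the derivative),
`HasCompactSupport.convolution`.  `gradient = toDual.symm ∘ fderiv`, an isometry. -/
def MolStmt : Prop := ∀ (d : ℕ) (F : E d → ℝ) (ε : ℝ), ContDiff ℝ 1 F → HasCompactSupport F →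
  0 < ε → ∃ G : E d → ℝ, ContDiff ℝ ((⊤ : ℕ∞) : WithTop ℕ∞) G ∧ HasCompactSupport G ∧
    (∀ x, |F x - G x| ≤ ε) ∧ ∀ x, ‖gradient F x - gradient G x‖ ≤ ε

/-- HZC (medium; uses MOL; compare `GcfStmt` of `Pool/Agent/BES/Stmts.lean`, row GCF, and its proof):
`C^1` functions near the closure which are bounded by `C δ`.  Proof: `χ0` smooth, `= 1` in a
neighbourhood of the compact set `closure Ω`, compact support in `V` (for instance
`exists_contDiff_tsupport_subset`, or `exists_contMDiffMap_one_nhds_of_subset_interior`);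
`F = χ0 f` is `C^1` with compact support and equals `f` near `closure Ω`.  MOL: `G_n`, error `1/n`.
`θ : ℝ → ℝ` smooth, `0` on `(-∞, 1]`, `1` on `[2, ∞)`, `0 ≤ θ ≤ 1`.
`ψ_n = θ(n δ) G_n` in `Ω`, `0` outside: support in the compact subset `{x ∈ Ω, n δ ≥ 1}` of `Ω`, smooth,
a test function.  `|ψ_n - f| ≤ 1_{n δ ≤ 2} |f| + 1/n`; `‖∇ψ_n - ∇f‖ ≤ 1_{n δ ≤ 2} ‖∇f‖ + 1/n +
n |θ'(n δ)| |G_n| ‖∇δ‖`, and `|G_n| ≤ C δ + 1/n ≤ (2C + 1)/n` where `θ'(n δ) ≠ 0`: everything is bounded on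
the bounded set `Ω` and tends to `0` pointwise (`n δ x → ∞`): dominated convergence. -/
def HzcStmt : Prop := ∀ (d : ℕ) (Ω V : Set (E d)) (δ f : E d → ℝ) (C : ℝ), IsOpen Ω →
  Bornology.IsBounded Ω → ContDiff ℝ ((⊤ : ℕ∞) : WithTop ℕ∞) δ → (∀ x ∈ Ω, 0 < δ x) →
  (∀ ε : ℝ, 0 < ε → IsCompact {x | x ∈ Ω ∧ ε ≤ δ x}) → IsOpen V → closure Ω ⊆ V →
  ContDiffOn ℝ 1 f V → 0 ≤ C → (∀ x ∈ Ω, |f x| ≤ C * δ x) → H10 Ω f (gradient f)

/-- SHD (easy-medium; no hypotheses): the function `δ` of a shell.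
`δ x = (‖x‖² - r²) (R² - ‖x‖²)`, a polynomial, positive in the shell; `{x ∈ Ω, ε ≤ δ x} =
{r ≤ ‖x‖ ≤ R, ε ≤ δ x}` is closed and bounded.  For `s = ‖x‖`, `r < s < R`: the segment
`τ ↦ τ • (‖x‖⁻¹ • x)`, `τ ∈ [r, s]` (or `[s, R]`), is in the compact set `r ≤ ‖y‖ ≤ R`, where `fderiv f` is
bounded by some `L` (`ContDiffOn ℝ 1 f V`, `V` open), so `|f x| ≤ L (s - r)` and `|f x| ≤ L (R - s)`
(mean value inequality, `f = 0` at the ends); `(s - r)(R - s) ≥ min (s - r) (R - s) (R - r)/2` and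
`δ = (s - r)(s + r)(R - s)(R + s) ≥ 2r (R + r) (s - r)(R - s)`.  The closure of the shell is contained in
`{r ≤ ‖x‖ ≤ R}`. -/
def ShdStmt : Prop := ∀ (d : ℕ) (r R : ℝ) (V : Set (E d)) (f : E d → ℝ), 0 < r → r < R →
  IsOpen V → {x : E d | r ≤ ‖x‖ ∧ ‖x‖ ≤ R} ⊆ V → ContDiffOn ℝ 1 f V →
  (∀ x : E d, ‖x‖ = r → f x = 0) → (∀ x : E d, ‖x‖ = R → f x = 0) →
  IsOpen (Shl d r R) ∧ Bornology.IsBounded (Shl d r R) ∧
  closure (Shl d r R) ⊆ {x : E d | r ≤ ‖x‖ ∧ ‖x‖ ≤ R} ∧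
  ContDiff ℝ ((⊤ : ℕ∞) : WithTop ℕ∞) (fun x : E d => (‖x‖ ^ 2 - r ^ 2) * (R ^ 2 - ‖x‖ ^ 2)) ∧
  (∀ x ∈ Shl d r R, 0 < (‖x‖ ^ 2 - r ^ 2) * (R ^ 2 - ‖x‖ ^ 2)) ∧
  (∀ ε : ℝ, 0 < ε →
    IsCompact {x | x ∈ Shl d r R ∧ ε ≤ (‖x‖ ^ 2 - r ^ 2) * (R ^ 2 - ‖x‖ ^ 2)}) ∧
  ∃ C : ℝ, 0 ≤ C ∧ ∀ x ∈ Shl d r R, |f x| ≤ C * ((‖x‖ ^ 2 - r ^ 2) * (R ^ 2 - ‖x‖ ^ 2))

/-- CSE (easy-medium; no hypotheses): sections of a `C²` function.  (1) For `t ≥ 0`, `V = {x | (t, x) ∈ U}`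
is open and contains `closure Ω`; `u t` is `C²` on `V`, `vt u t` is `C^1` on `V` (`vt u t x =
fderiv (fun z => u z.1 z.2) (t, x) (1, 0)` on `U`, because `U` is open).  (2) `vt u`, `wt u`,
`(t, x) ↦ gradient (u t) x` and `(t, x) ↦ Δ (u t) x` are continuous on `U` (they are first and second
derivatives of the `C²` function; for the Laplacian: `laplacian_eq_iteratedFDeriv_orthonormalBasis` or a
similar lemma, continuity on the open set `U` of `iteratedFDeriv ℝ 2` of `u t` in both variables: it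
is `iteratedFDeriv ℝ 2 (fun z => u z.1 z.2) (t, x)` on vectors `(0, e_i)`), and `u`, `vt u` have the
derivatives `vt u`, `wt u` in time.  (3) if `u t x = 0` for all `t ≥ 0` then `vt u t x = 0` for `t ≥ 0`
(derivative from the right; `u` is differentiable). -/
def CseStmt : Prop := ∀ (d : ℕ) (U : Set (ℝ × E d)) (u : ℝ → E d → ℝ), IsOpen U →
  ContDiffOn ℝ 2 (fun z : ℝ × E d => u z.1 z.2) U →
  (∀ t : ℝ, IsOpen {x | (t, x) ∈ U} ∧ ContDiffOn ℝ 2 (u t) {x | (t, x) ∈ U} ∧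
    ContDiffOn ℝ 1 (vt u t) {x | (t, x) ∈ U}) ∧
  ContinuousOn (fun z : ℝ × E d => vt u z.1 z.2) U ∧
  ContinuousOn (fun z : ℝ × E d => wt u z.1 z.2) U ∧
  ContinuousOn (fun z : ℝ × E d => gradient (u z.1) z.2) U ∧
  ContinuousOn (fun z : ℝ × E d => (Δ (u z.1)) z.2) U ∧
  (∀ z ∈ U, HasDerivAt (fun s => u s z.2) (vt u z.1 z.2) z.1 ∧
    HasDerivAt (fun s => vt u s z.2) (wt u z.1 z.2) z.1) ∧
  ∀ x : E d, (∀ t : ℝ, 0 ≤ t → u t x = 0) → ∀ t : ℝ, 0 ≤ t → (t, x) ∈ U → vt u t x = 0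

/-- LDF (medium; uses CSE): derivatives in `L²`.  `K = closure Ω` compact, `t ≥ 0`; `[0, t+1] × K` is
compact and contained in `U`.  For `s ≥ 0`, `|s - t| ≤ 1`, `x ∈ K`: the segment from `(t, x)` to `(s, x)` is
in `U`, so `|(s-t)⁻¹ (u s x - u t x) - vt u t x| ≤ sup |vt u τ x - vt u t x| ≤ ε` for `|s - t|` small, by
uniform continuity on the compact set (mean value theorem); the `L²(Ω)` norm is at most
`ε |Ω|^(1/2)` (`eLpNorm_le_of_ae_bound`, `Ω` has finite measure).  The same for `vt u`, `wt u`, and for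
the continuity of `wt u` and of the gradient.  Boundedness on the compact set gives `L2`, `AeBdd`;
measurability from continuity on the open set `Ω`. -/
def LdfStmt : Prop := ∀ (d : ℕ) (Ω : Set (E d)) (u : ℝ → E d → ℝ), IsOpen Ω →
  Bornology.IsBounded Ω → C2 Ω u → ∀ t : ℝ, 0 ≤ t →
  Der Ω u (vt u t) t ∧ Der Ω (vt u) (wt u t) t ∧ Ct Ω (wt u) t ∧ L2 Ω (wt u t) ∧
    AeBdd Ω (vt u t) ∧ Ctv Ω (fun s x => gradient (u s) x) t

/-- GRE (medium; no hypotheses): Green's identity for a test function.  `Δ f = Σ_i ∂_i ∂_i f`,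
`⟪∇f, ∇ψ⟫ = Σ_i ∂_i f ∂_i ψ`.  `∂_i (ψ ∂_i f) = ∂_i ψ ∂_i f + ψ ∂_i ∂_i f`, and `ψ ∂_i f` (which is `0`
outside of the compact set `tsupport ψ ⊆ V`) is `C^1` with compact support, so that the integral of its
derivative is `0` (`integral_bilinear_hasLineDerivAt_right_eq_neg_left_of_integrable`, or
`integral_mul_fderiv_eq_neg_fderiv_mul_of_integrable` with `g = 1` near the support). -/
def GreStmt : Prop := ∀ (d : ℕ) (V : Set (E d)) (f ψ : E d → ℝ), IsOpen V →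
  ContDiffOn ℝ 2 f V → ContDiff ℝ ((⊤ : ℕ∞) : WithTop ℕ∞) ψ → HasCompactSupport ψ →
  tsupport ψ ⊆ V →
  Integrable (fun x => (Δ f) x * ψ x) ∧ Integrable (fun x => ⟪gradient f x, gradient ψ x⟫_ℝ) ∧
  ∫ x, ((Δ f) x * ψ x + ⟪gradient f x, gradient ψ x⟫_ℝ) = 0

/-- WEK (easy-medium; uses CSE, GRE): the weak form.  The equation holds for `t > 0`, `x ∈ Ω`, and by
continuity (CSE (2), `(0, x) ∈ U`) also for `t = 0`.  `intg Ω = ∫ over Ω`; the integrand vanishes outside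
of `tsupport ψ ⊆ Ω`, so it is the integral over `E d`; in `Ω`:
`wt ψ + ⟪∇u, ∇ψ⟫ + a |vt|^α vt ψ = Δu ψ + ⟪∇u, ∇ψ⟫`; GRE with `V = Ω` (`u t` is `C²` on `Ω`). -/
def WekStmt : Prop := ∀ (d : ℕ) (Ω : Set (E d)) (u : ℝ → E d → ℝ) (a α : ℝ), IsOpen Ω →
  Bornology.IsBounded Ω → C2 Ω u → 0 < α →
  (∀ (t : ℝ) (x : E d), 0 < t → x ∈ Ω → iteratedDeriv 2 (fun s => u s x) t - (Δ (u t)) x +
    a * (|deriv (fun s => u s x) t| ^ α * deriv (fun s => u s x) t) = 0) →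
  ∀ t : ℝ, 0 ≤ t → Weak Ω a α (vt u t) (wt u t) (gradient (u t))

/-- SHR (easy-medium; uses HZC, SHD, CSE, LDF, WEK and `Pool.Agent.BEC.Shell` =
`Pool/Agent/Helper22_BEC/Shell.lean`, our old theorem): the shells of `ℝ³`, every `α > 0`.
`Shell.result` gives a radial classical solution with the sharp rate, and `Shell.energy` is
`energy (Shl 3 r R) (vt u) (fun t x => gradient (u t) x)` (`‖gradient f x‖ = ‖fderiv ℝ f x‖`, `toDual` is
an isometry).  `Sol`: `dom` by HZC and SHD for `u t`, `vdom` for `vt u t` with `F = gradient (vt u t)`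
(`vt u t = 0` on the boundary by CSE (3)), the rest by LDF, WEK. -/
def ShrStmt : Prop := ∀ (r R a α : ℝ), 0 < r → r < R → 0 < a → 0 < α → SharpRate (Shl 3 r R) a α

end

end Pool.Agent.BEC
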